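import Pool.Agent.J4H20.TR.Stm

set_option autoImplicit false

namespace Pool.Agent.J4H79.TR

open Polynomial NumberField nonZeroDivisors WithZero Pool.Agent.J4H20.TR

section

variable {K : Type} [Field K] (w : Valuation K (WithZero (Multiplicative ℤ)))

lemma one_of_mul {x y : K} (hx : w x ≤ 1) (hy : w y ≤ 1) (h : w x * w y = 1) : w x = 1 := by
  by_contra hne
  have h1 : w x < 1 := lt_of_le_of_ne hx hne
  have h2 : w x * w y < 1 := mul_lt_one_of_lt_of_le h1 hy
  rw [h] at h2
  exact lt_irrefl _ h2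

variable {w}

lemma aeval_le (hint : ∀ a : ℤ, w (a : K) ≤ 1) {θ : K} (hθ : w θ ≤ 1) (G : ℤ[X]) :
    w (aeval θ G) ≤ 1 := by
  induction G using Polynomial.induction_on with
  | C a => simpa using hint a
  | add p q hp hq =>
    rw [map_add]
    exact w.map_add_le hp hq
  | monomial n a _ =>
    rw [map_mul, map_pow, aeval_X, map_mul, map_pow]
    refine mul_le_one' ?_ ?_
    · simpa using hint a
    · exact pow_le_one' hθ _

/-- coprime integers -/
lemma coprime_val (hint : ∀ a : ℤ, w (a : K) ≤ 1) {r b : ℤ} (h : IsCoprime r b)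
    (hr : w (r : K) < 1) (hb : w (b : K) < 1) : False := by
  obtain ⟨u, v, huv⟩ := h
  have h1 : w (1 : K) < 1 := by
    have e : (1 : K) = (u : K) * r + (v : K) * b := by
      rw [← Int.cast_mul, ← Int.cast_mul, ← Int.cast_add, huv, Int.cast_one]
    rw [e]
    refine w.map_add_lt ?_ ?_
    · rw [map_mul, mul_comm]
      exact mul_lt_one_of_lt_of_le hr (hint u)
    · rw [map_mul, mul_comm]
      exact mul_lt_one_of_lt_of_le hb (hint v)
  rw [map_one] at h1
  exact lt_irrefl _ h1

end

lemma aeval_hh {K : Type} [Field K] (θ : K) (g r : ℤ[X]) (c M : ℤ) :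
    aeval θ (hh g r c M) = 2 * c * M * aeval θ g - (M : K) ^ 2 * aeval θ r + (c : K) ^ 2 := by
  have e : hh g r c M = C (2 * c * M) * g - C (M ^ 2) * r + C (c ^ 2) := rfl
  have h1 : aeval θ (C (2 * c * M) * g) = (((2 * c * M : ℤ)) : K) * aeval θ g := by
    rw [map_mul (aeval θ), aeval_C, eq_intCast]
  have h2 : aeval θ (C (M ^ 2) * r) = (((M ^ 2 : ℤ)) : K) * aeval θ r := by
    rw [map_mul (aeval θ), aeval_C, eq_intCast]
  have h3 : aeval θ (C (c ^ 2) : ℤ[X]) = (((c ^ 2 : ℤ)) : K) := by rw [aeval_C, eq_intCast]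
  rw [e, map_add, map_sub, h1, h2, h3]
  push_cast
  ring

/-- the equation -/
lemma eqn {n k : ℕ} (D : Dat2 n k) {K : Type} [Field K] {θ : K} {c M : ℤ}
    (h : aeval θ (hh D.g D.r c M) = 0) :
    (M : K) ^ 2 * ∏ i, (θ - (D.a i : K)) = ((M : K) * aeval θ D.g + c) ^ 2 := by
  have h1 := congrArg (aeval θ) D.hf
  rw [map_prod] at h1
  simp only [map_sub, aeval_X, aeval_C, map_add, map_pow] at h1
  simp only [eq_intCast] at h1
  rw [aeval_hh] at h
  rw [h1]
  linear_combination (-1 : K) * h

theorem t_LOC : S_LOC := by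
  intro n k D K _ _ θ c M hM hcop hdvd hθ0 hne i j v
  set w := v.valuation K with hw
  have hint : ∀ a : ℤ, w (a : K) ≤ 1 := by
    intro a
    have := v.valuation_le_one (K := K) (a : 𝓞 K)
    simpa using this
  have hE := eqn D hθ0
  rcases le_or_gt (w θ) 1 with hθ | hθ
  · have hMw : w (M : K) = 1 := by
      by_contra hMne
      have hMlt : w (M : K) < 1 := lt_of_le_of_ne (hint M) hMne
      have hclt : w (c : K) < 1 := by
        have h1 : (c : K) * c = (M : K) * (M * aeval θ D.r - 2 * c * aeval θ D.g) := by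
          rw [aeval_hh] at hθ0
          linear_combination hθ0
        have h2 : w ((M : K) * aeval θ D.r - 2 * c * aeval θ D.g) ≤ 1 := by
          refine w.map_sub_le ?_ ?_
          · rw [map_mul]
            exact mul_le_one' (hint M) (aeval_le hint hθ _)
          · have : (2 * c * aeval θ D.g : K) = ((2 * c : ℤ) : K) * aeval θ D.g := by push_cast; ring
            rw [this, map_mul]
            exact mul_le_one' (hint _) (aeval_le hint hθ _)
        have h3 : w (c : K) * w (c : K) < 1 := by
          rw [← map_mul, h1, map_mul]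
          exact mul_lt_one_of_lt_of_le hMlt h2
        by_contra h4
        have h5 : w (c : K) = 1 := le_antisymm (hint c) (not_lt.mp h4)
        rw [h5, one_mul] at h3
        exact lt_irrefl _ h3
      exact coprime_val hint hcop hclt hMlt
    have hdiff : ∀ i j, i ≠ j → w ((D.a i : K) - (D.a j : K)) = 1 := by
      intro i j hij
      obtain ⟨e, he⟩ := hdvd i j hij
      have h1 : w (((D.a i - D.a j : ℤ) : K)) * w (e : K) = 1 := by
        rw [← map_mul, ← Int.cast_mul, ← he, hMw]
      have := one_of_mul w (hint _) (hint _) h1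
      rwa [Int.cast_sub] at this
    have hpt : ∀ i, ∃ z : ℤ, w (θ - (D.a i : K)) = exp (((2 : ℕ) : ℤ) * z) := by
      intro i
      have hle : w (θ - (D.a i : K)) ≤ 1 := w.map_sub_le hθ (hint _)
      by_cases h1 : w (θ - (D.a i : K)) = 1
      · exact ⟨0, by rw [h1, mul_zero, exp_zero]⟩
      have hlt : w (θ - (D.a i : K)) < 1 := lt_of_le_of_ne hle h1
      have hoth : ∀ j, j ≠ i → w (θ - (D.a j : K)) = 1 := by
        intro j hj
        have e : θ - (D.a j : K) = (θ - (D.a i : K)) + ((D.a i : K) - (D.a j : K)) := by ring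
        rw [e, w.map_add_eq_of_lt_right (by rw [hdiff i j (Ne.symm hj)]; exact hlt)]
        exact hdiff i j (Ne.symm hj)
      have hprod : w (∏ i, (θ - (D.a i : K))) = w (θ - (D.a i : K)) := by
        rw [map_prod]
        exact Finset.prod_eq_single i (fun j _ hj => hoth j hj) (fun h => absurd (Finset.mem_univ i) h)
      have hsq : w (θ - (D.a i : K)) = w ((M : K) * aeval θ D.g + c) ^ 2 := by
        have h2 := congrArg w hE
        rw [map_mul, map_pow, hMw, one_pow, one_mul, hprod, map_pow] at h2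
        exact h2
      have h0 : w ((M : K) * aeval θ D.g + c) ≠ 0 := by
        intro h0
        rw [h0] at hsq
        simp only [ne_eq, OfNat.ofNat_ne_zero, not_false_eq_true, zero_pow] at hsq
        exact hne i ((w.zero_iff).mp hsq)
      refine ⟨log (w ((M : K) * aeval θ D.g + c)), ?_⟩
      rw [hsq]
      conv_lhs => rw [← exp_log h0]
      rw [← exp_nsmul, nsmul_eq_mul]
    obtain ⟨z, hz⟩ := hpt i
    obtain ⟨z', hz'⟩ := hpt j
    refine ⟨z - z', ?_⟩
    rw [map_div₀, hz, hz', mul_sub, exp_sub]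
  · have hpt : ∀ x, w (θ - (D.a x : K)) = w θ := fun x =>
      w.map_sub_eq_of_lt_left ((hint _).trans_lt hθ)
    refine ⟨0, ?_⟩
    have hne : w θ ≠ 0 := (zero_lt_one.trans hθ).ne'
    rw [map_div₀, hpt, hpt, div_self hne, mul_zero, exp_zero]

end Pool.Agent.J4H79.TR
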